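import Pool.Agent.TH167.TT.Conv9

set_option autoImplicit false

/-!
# Prime divisors with at most nine multiplicities larger than two

Let `P i`, `i < s`, be `s ≥ 4` generic points of the plane over a field of characteristic zero, and
let `C` be a prime divisor on the blow-up, of class `e H - ∑ w i E i`, such that at most nine of the
`w i` are larger than `2`. Then `h¹(C) = 0`.
-/

namespace Pool.Agent.TH167.Var.MP_0dccba_ag_NineAboveTwo

open MvPolynomial Pool.Agent.TH167 Pool.Agent.TH167.SHDefs

/-- The dimension of `H¹` of the class `(e, w)`, computed from `H⁰`; it is nonnegative. -/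
noncomputable def hOne {K : Type} [Field K] {s : ℕ} (P : Fin s → Fin 2 → K) (e : ℕ)
    (w : Fin s → ℕ) : ℤ := dimL P e w - virtdim e w

theorem result (K : Type) [Field K] [CharZero K] (r : ℕ) (P : Fin (r + 4) → Fin 2 → K)
    (hP : AlgebraicIndependent ℚ (fun ij : Fin (r + 4) × Fin 2 => P ij.1 ij.2))
    (e : ℕ) (w : Fin (r + 4) → ℕ) (hw : (Finset.univ.filter fun i => 2 < w i).card ≤ 9)
    (G : MvPolynomial (Fin 3) K) (hG : Curve P G e w) :
    hOne P e w = 0 := by
  obtain ⟨h1, h2, h3⟩ := SH.curve_iff.1 hG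
  unfold hOne
  rw [SH.dimL_eq, SH.virtdim_eq, (TT.prime9 hw TT.notMem_filter hP h1 h2 h3).1]
  ring

end Pool.Agent.TH167.Var.MP_0dccba_ag_NineAboveTwo
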