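import Pool.Agent.TH167.DD.PrimeA
import Pool.Agent.TH167.TT.Conv9

set_option autoImplicit false

/-!
# Prime divisors whose large multiplicities have sum less than three times the degree

Let `P i`, `i < s`, be `s ≥ 4` generic points of the plane over an algebraically closed field of
characteristic zero, and let `C` be a prime divisor on the blow-up, of class `e H - ∑ w i E i`, such
that the sum of the multiplicities `w i ≥ 3` is less than `3 e`. Then `h¹(C) = 0`. The number of
multiplicities `w i ≥ 3` is arbitrary.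
-/

namespace Pool.Agent.TH167.Var.MP_0dccba_ag_PositiveOnLargePoints

open MvPolynomial Pool.Agent.TH167 Pool.Agent.TH167.SHDefs

/-- The dimension of `H¹` of the class `(e, w)`, computed from `H⁰`; it is nonnegative. -/
noncomputable def hOne {K : Type} [Field K] {s : ℕ} (P : Fin s → Fin 2 → K) (e : ℕ)
    (w : Fin s → ℕ) : ℤ := dimL P e w - virtdim e w

theorem result (K : Type) [Field K] [CharZero K] [IsAlgClosed K] (r : ℕ)
    (P : Fin (r + 4) → Fin 2 → K)
    (hP : AlgebraicIndependent ℚ (fun ij : Fin (r + 4) × Fin 2 => P ij.1 ij.2))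
    (e : ℕ) (w : Fin (r + 4) → ℕ) (hw : (∑ i, if 3 ≤ w i then w i else 0) < 3 * e)
    (G : MvPolynomial (Fin 3) K) (hG : Curve P G e w) :
    hOne P e w = 0 := by
  obtain ⟨h1, h2, h3⟩ := SH.curve_iff.1 hG
  have hsum : ∑ j ∈ Finset.univ.filter (fun i => 2 < w i), w j < 3 * e := by
    rw [Finset.sum_filter]
    exact hw
  unfold hOne
  rw [SH.dimL_eq, SH.virtdim_eq, (DD.primeA (S := Finset.univ.filter fun i => 2 < w i)
    TT.notMem_filter hsum hP h1 h2 h3).1]
  ring

end Pool.Agent.TH167.Var.MP_0dccba_ag_PositiveOnLargePoints
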