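import Pool.Agent.TH167.TT.Conv9

set_option autoImplicit false

/-!
# Nef classes with at most nine multiplicities larger than two are non-special

Let `X` be the blow-up of the complex projective plane at `n ≥ 4` very general points. Every class
`d H - ∑ w i E i` on `X`, `w i ≥ 0`, with at most nine of the `w i` larger than `2`, which has
non-negative intersection with all effective classes `e H - ∑ u i E i`, `u i ≥ 0`, is non-special.
-/

namespace Pool.Agent.TH167.Var.MP_0f5763_ag_NineAboveTwo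

open MvPolynomial Pool.Agent.TH167 Pool.Agent.TH167.SHDefs

theorem result (r : ℕ) : ∃ Z : ℕ → MvPolynomial (Fin (r + 4) × Fin 2) ℂ, (∀ n, Z n ≠ 0) ∧
    ∀ P : Fin (r + 4) → Fin 2 → ℂ,
      (∀ n, MvPolynomial.eval (fun ij : Fin (r + 4) × Fin 2 => P ij.1 ij.2) (Z n) ≠ 0) →
      ∀ (d : ℕ) (w : Fin (r + 4) → ℕ), (Finset.univ.filter fun i => 2 < w i).card ≤ 9 →
        (∀ (e : ℕ) (u : Fin (r + 4) → ℕ), sys P e u ≠ ⊥ → 0 ≤ inter d w e u) →
        ¬ Special P d w := by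
  obtain ⟨Z, hZ, h⟩ := SH.exists_fam (Fin (r + 4) × Fin 2)
  refine ⟨Z, hZ, fun P hP d w hw hnef hs => ?_⟩
  obtain ⟨d', w', k, C, e, u, N, h1, h2, a, ha⟩ := (TT.hh9_gen ((h _).1 hP) d w hw).1 hs
  have h3 := SH.decomp_iff.1 h1
  have h4 := hnef (e a) (u a) (by
    obtain ⟨c1, c2, c3⟩ := SH.curve_iff.1 (h1.curve a).curve
    rw [Submodule.ne_bot_iff]
    refine ⟨C a, ?_, c1.ne_zero⟩
    rw [SH.sys_eq]
    exact (SH.mem_VS _ _ _ _).2 ⟨c2, fun j => (c3 j).1⟩)
  rw [SH.inter_eq, h3.neg] at h4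
  omega

end Pool.Agent.TH167.Var.MP_0f5763_ag_NineAboveTwo
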