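import Pool.Agent.TH167.TT.NonSp

set_option autoImplicit false

/-!
# Fat points in the plane, at most nine multiplicities larger than two

Let `Γ` be the fat point scheme with multiplicities `w i` at general points of the complex
projective plane, where at most nine of the `w i` are larger than `2`. Then `Γ` fails to impose
maximal conditions in degree `d` if and only if there is a nonzero form of degree `d` in the ideal
and a `(-1)`-curve `G` with `(d H - ∑ w i E i) G ≤ -2`.
-/

namespace Pool.Agent.TH167.Var.MP_1dafdd_ag_PlaneNineAboveTwo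

open MvPolynomial Pool.Agent.TH167 Pool.Agent.TH167.SHDefs

/-- The fat point scheme imposes maximal conditions on the forms of degree `d`. -/
def ImposesMaximalConditions {s : ℕ} (P : Fin s → Fin 2 → ℂ) (d : ℕ) (w : Fin s → ℕ) : Prop :=
  (Module.finrank ℂ ↥(sys P d w) : ℤ) =
    max 0 (((d + 2).choose 2 : ℤ) - ∑ i, ((w i + 1).choose 2 : ℤ))

theorem result (r d : ℕ) (w : Fin (r + 4) → ℕ)
    (hw : (Finset.univ.filter fun i => 2 < w i).card ≤ 9) :
    ∃ F : MvPolynomial (Fin (r + 4) × Fin 2) ℂ, F ≠ 0 ∧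
      ∀ P : Fin (r + 4) → Fin 2 → ℂ,
        MvPolynomial.eval (fun ij : Fin (r + 4) × Fin 2 => P ij.1 ij.2) F ≠ 0 →
          (¬ ImposesMaximalConditions P d w ↔
            sys P d w ≠ ⊥ ∧ ∃ (G : MvPolynomial (Fin 3) ℂ) (e : ℕ) (u : Fin (r + 4) → ℕ),
              MinusOne P G e u ∧ inter d w e u ≤ -2) := by
  obtain ⟨F, hF, h⟩ := TT.hh9_conv d w hw
  refine ⟨F, hF, fun P hP => ?_⟩
  obtain ⟨hinj, h1⟩ := h P hP
  have h2 : ¬ ImposesMaximalConditions P d w ↔ Special P d w := by
    unfold ImposesMaximalConditions Special dimL virtdim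
    rw [not_iff_not]
    rcases le_total 0 (((d + 2).choose 2 : ℤ) - ∑ i, ((w i + 1).choose 2 : ℤ)) with h3 | h3
    · rw [max_eq_right h3, max_eq_left (by omega)]
      omega
    · rw [max_eq_left h3, max_eq_right (by omega)]
      omega
  rw [h2]
  constructor
  · intro hs
    refine ⟨fun hbot => ?_, SH.mspecial_curve (h1.1 hs)⟩
    have h3 := (SH.special_iff P d w).1 ((SH.special_conv P d w).1 hs)
    rw [← SH.sys_eq, hbot, finrank_bot] at h3
    exact absurd h3.1 (lt_irrefl 0)
  · rintro ⟨hne, G, e, u, hG, hGw⟩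
    rw [SH.special_conv]
    refine TT.special_of_neg hinj (SH.minusOne_iff.1 hG) ?_ hGw
    have := W609.CR.vs_fin (fun j => W609.CR.aff (P j)) w d
    rw [SH.sys_eq] at hne
    rw [Module.finrank_pos_iff]
    exact (Submodule.nontrivial_iff_ne_bot).2 hne

end Pool.Agent.TH167.Var.MP_1dafdd_ag_PlaneNineAboveTwo
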