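import Pool.Agent.TH167.TT.NonSp

set_option autoImplicit false

/-!
# Effective classes with at most nine multiplicities larger than two

Let `X` be the blow-up of the complex projective plane at `n ≥ 4` very general points, and let
`D = d H - ∑ w i E i` be an effective class with `w i ≥ 0`, at most nine of the `w i` being larger
than `2`. Then `D = M + ∑ N a C a` with pairwise disjoint `(-1)`-curves `C a`, `N a > 0`,
`M C a = 0`, and a nef class `M` with `M ^ 2 ≥ 0` and `h⁰(D) = h⁰(M) = χ(M)`. In particular `D` lies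
in the convex cone spanned by the positive cone and by the classes of the `(-1)`-curves.
-/

namespace Pool.Agent.TH167.Var.MP_309968_ag_EffectiveNineAboveTwo

open MvPolynomial Pool.Agent.TH167 Pool.Agent.TH167.SHDefs

theorem result (r : ℕ) : ∃ Z : ℕ → MvPolynomial (Fin (r + 4) × Fin 2) ℂ, (∀ n, Z n ≠ 0) ∧
    ∀ P : Fin (r + 4) → Fin 2 → ℂ,
      (∀ n, MvPolynomial.eval (fun ij : Fin (r + 4) × Fin 2 => P ij.1 ij.2) (Z n) ≠ 0) →
      ∀ (d : ℕ) (w : Fin (r + 4) → ℕ), (Finset.univ.filter fun i => 2 < w i).card ≤ 9 →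
        sys P d w ≠ ⊥ →
        ∃ (d' : ℕ) (w' : Fin (r + 4) → ℕ) (k : ℕ) (G : Fin k → MvPolynomial (Fin 3) ℂ)
          (e : Fin k → ℕ) (u : Fin k → Fin (r + 4) → ℕ) (N : Fin k → ℕ),
          Decomp P d w d' w' G e u N ∧
          (∀ (C : MvPolynomial (Fin 3) ℂ) (f : ℕ) (v : Fin (r + 4) → ℕ), Curve P C f v →
            0 ≤ inter d' w' f v) ∧
          0 ≤ inter d' w' d' w' ∧
          dimL P d w = dimL P d' w' ∧ dimL P d' w' = virtdim d' w' := by
  obtain ⟨Z, hZ, h⟩ := SH.exists_fam (Fin (r + 4) × Fin 2)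
  refine ⟨Z, hZ, fun P hP d w hw hne => ?_⟩
  have hpos : 0 < Module.finrank ℂ ↥(W609.CR.VS (fun j => W609.CR.aff (P j)) w d) := by
    have := W609.CR.vs_fin (fun j => W609.CR.aff (P j)) w d
    rw [SH.sys_eq] at hne
    rw [Module.finrank_pos_iff]
    exact (Submodule.nontrivial_iff_ne_bot).2 hne
  obtain ⟨d', w', k, C, e, u, N, h1, h2, h3, h4, h5⟩ :=
    TT.zar9 ((h _).1 hP) hw TT.notMem_filter hpos
  refine ⟨d', w', k, C, e, u, N, SH.decomp_iff.2 h1, fun G f v hG => ?_, h3, ?_, ?_⟩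
  · obtain ⟨a1, a2, a3⟩ := SH.curve_iff.1 hG
    exact h2 G f v a1 a2 a3
  · rw [SH.dimL_eq, SH.dimL_eq, h4]
  · rw [SH.dimL_eq, SH.virtdim_eq, h4, h5]

end Pool.Agent.TH167.Var.MP_309968_ag_EffectiveNineAboveTwo
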