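import Pool.Agent.TH167.SM.Pos3
import Pool.Agent.TH167.SH.Conv
import Pool.Agent.TH167.SH.Fam
import Pool.Agent.TH167.DD.PrimeA

set_option autoImplicit false

/-!
# Curves whose large multiplicities have sum less than three times the degree

Let `X` be the blow-up of the complex projective plane at `n ≥ 4` very general points. Every
irreducible curve `C` of class `e H - ∑ w i E i` on `X` such that the sum of the multiplicities
`w i ≥ 3` is less than `3 e` moves in a linear system of dimension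
`(C ^ 2 - K C) / 2 ≥ 0`, and it is a `(-1)`-curve or `C ^ 2 ≥ 0`. In particular its class is in the
cone spanned by the positive cone and by the `(-1)`-curves.
-/

namespace Pool.Agent.TH167.Var.MP_309968_ag_PositiveOnLargePoints

open MvPolynomial Pool.Agent.TH167 Pool.Agent.TH167.SHDefs

theorem result (r : ℕ) : ∃ Z : ℕ → MvPolynomial (Fin (r + 4) × Fin 2) ℂ, (∀ n, Z n ≠ 0) ∧
    ∀ P : Fin (r + 4) → Fin 2 → ℂ,
      (∀ n, MvPolynomial.eval (fun ij : Fin (r + 4) × Fin 2 => P ij.1 ij.2) (Z n) ≠ 0) →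
      ∀ (e : ℕ) (w : Fin (r + 4) → ℕ) (G : MvPolynomial (Fin 3) ℂ),
        Curve P G e w → (∑ i, if 3 ≤ w i then w i else 0) < 3 * e →
        2 * dimL P e w = inter e w e w - interK e w ∧ (0 ≤ inter e w e w ∨ MinusOne P G e w) := by
  obtain ⟨Z, hZ, h⟩ := SH.exists_fam (Fin (r + 4) × Fin 2)
  refine ⟨Z, hZ, fun P hP e w G hG hw => ?_⟩
  obtain ⟨h1, h2, h3⟩ := SH.curve_iff.1 hG
  have hsum : ∑ j ∈ Finset.univ.filter (fun i => 2 < w i), w j < 3 * e := by
    rw [Finset.sum_filter]
    exact hw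
  obtain ⟨h4, h5⟩ := DD.primeA (S := Finset.univ.filter fun i => 2 < w i) TT.notMem_filter hsum
    ((h _).1 hP) h1 h2 h3
  constructor
  · rw [SH.dimL_eq, h4, SH.inter_eq, SH.interK_eq]
    have := SH.two_chi e w
    linarith
  · rcases lt_or_ge (inter e w e w) 0 with hneg | hnn
    · right
      rw [SH.inter_eq] at hneg
      obtain ⟨h6, h7⟩ := h5 hneg
      exact ⟨hG, by rw [SH.inter_eq, h6], by rw [SH.interK_eq, h7]⟩
    · left
      exact hnn

end Pool.Agent.TH167.Var.MP_309968_ag_PositiveOnLargePoints
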