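import Pool.Agent.TH167.SH.Conv

set_option autoImplicit false

/-!
# The Harbourne-Hirschowitz conjecture with at most five multiplicities above a bound

Let `m ≥ 1` and `B = 2 ^ 17 (4 m ^ 2 + 8 m + 5) ^ 4`. Consider plane curves of degree `d` with
multiplicities `w i` at general points, where at most five of the `w i` are larger than `m` (or the
sum of those larger than `m` is at most `2 d - (4 m ^ 2 + 8 m + 5)`). The linear system is special
if and only if it is `(-1)`-special, except perhaps if its dimension is less than `B - 1`, the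
arithmetic genus is less than `B`, and the class, after the removal of disjoint `(-1)`-curves and
finitely many quadratic transformations, belongs to a finite list of reduced classes which depends
only on `m`, and is special there.
-/

namespace Pool.Agent.TH167.Var.MP_6b2d39_ag_SpecialIffMinusOneSpecial

open MvPolynomial Pool.Agent.TH167 Pool.Agent.TH167.SHDefs

/-- The possible exceptions: the system is, up to disjoint `(-1)`-curves and quadratic
transformations, a special system in the finite list. -/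
def Exceptional {s : ℕ} (B : ℕ) (P : Fin s → Fin 2 → ℂ) (d : ℕ) (w : Fin s → ℕ) : Prop :=
  ∃ (d' : ℕ) (w' : Fin s → ℕ) (k : ℕ) (G : Fin k → MvPolynomial (Fin 3) ℂ)
    (e : Fin k → ℕ) (u : Fin k → Fin s → ℕ) (N : Fin k → ℕ) (d1 : ℕ) (w1 : Fin s → ℕ),
    Decomp P d w d' w' G e u N ∧ ReducesTo B d' w' d1 w1 ∧ Special P d1 w1 ∧
    dimL P d1 w1 = dimL P d w ∧ dimL P d w < (B : ℤ) - 1 ∧
    ((d : ℤ) - 1) * ((d : ℤ) - 2) - ∑ i, (w i : ℤ) * ((w i : ℤ) - 1) < 2 * (B : ℤ)

theorem result (r m : ℕ) (hm : 0 < m) (d : ℕ) (w : Fin (r + 4) → ℕ) (hw : FewLarge m d w) :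
    ∃ F : MvPolynomial (Fin (r + 4) × Fin 2) ℂ, F ≠ 0 ∧
      ∀ P : Fin (r + 4) → Fin 2 → ℂ,
        MvPolynomial.eval (fun ij : Fin (r + 4) × Fin 2 => P ij.1 ij.2) F ≠ 0 →
          (Special P d w ↔ MinusOneSpecial P d w) ∨ Exceptional (bd m) P d w := by
  classical
  obtain ⟨F, hF, h⟩ := SH.hh hm rfl d w hw
  refine ⟨F.map (algebraMap ℚ ℂ), SH.map_ne hF, fun P hP => ?_⟩
  rw [SH.evP_eval] at hP
  by_cases hs : SH.Special P d w
  · rcases h ℂ P hP hs with h1 | ⟨⟨d', w', k, C, e, u, N, d1, w1, c1, c2, c3, c4, c5, c6, c7, c8⟩,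
      h2, h3⟩
    · left
      rw [SH.special_conv, SH.mspecial_conv]
      exact ⟨fun _ => h1, fun _ => hs⟩
    · right
      refine ⟨d', w', k, C, e, u, N, d1, w1, SH.decomp_iff.2 c1, ⟨SH.chain_conv c2, c3, c4, c5⟩,
        (SH.special_conv P d1 w1).2 c8, ?_, ?_, ?_⟩
      · rw [SH.dimL_eq, SH.dimL_eq, c7]
      · rw [SH.dimL_eq]
        have h4 : ((Module.finrank ℂ ↥(W609.CR.VS (fun j => W609.CR.aff (P j)) w d) : ℕ) : ℤ) <
          ((bd m : ℕ) : ℤ) := by exact_mod_cast h2
        omega
      · have h5 := SH.genus_eq d w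
        have h6 : SH.chi d w - SH.kk d w < ((bd m : ℕ) : ℤ) := h3
        omega
  · left
    rw [SH.special_conv, SH.mspecial_conv]
    exact ⟨fun h1 => absurd h1 hs, fun h1 => h1.special⟩

end Pool.Agent.TH167.Var.MP_6b2d39_ag_SpecialIffMinusOneSpecial
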