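import Pool.Agent.TH167.SM.Pos3
import Pool.Agent.TH167.SH.Conv
import Pool.Agent.TH167.SH.Fam

set_option autoImplicit false

/-!
# Classes with an irreducible member have the expected dimension

For very general points `P 1, …, P s` of the complex projective plane, every class
`(d; m 1, …, m s)` such that the sum of the multiplicities `m i ≥ 3` is less than `3 d`, and which has
a member given by an irreducible form, has the expected dimension. The number of the multiplicities
`m i ≥ 3` is arbitrary.
-/

namespace Pool.Agent.TH167.Var.MP_6e81d8_ag_IrreducibleMember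

open Pool.Agent.TH167

theorem result (s : ℕ) : ∃ Z : ℕ → MvPolynomial (Fin s × Fin 2) ℂ, (∀ n, Z n ≠ 0) ∧
    ∀ P : Fin s → Fin 2 → ℂ,
      (∀ n, MvPolynomial.eval (fun ij : Fin s × Fin 2 => P ij.1 ij.2) (Z n) ≠ 0) →
      ∀ (m : Fin s → ℕ) (d : ℕ), (∑ i, if 3 ≤ m i then m i else 0) < 3 * d →
        (∃ F ∈ MvPolynomial.homogeneousSubmodule (Fin 3) ℂ d ⊓
              Submodule.restrictScalars ℂ
                (⨅ i : Fin s,
                  (Ideal.span
                    ({MvPolynomial.X 0 - MvPolynomial.C (P i 0) * MvPolynomial.X 2,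
                      MvPolynomial.X 1 - MvPolynomial.C (P i 1) * MvPolynomial.X 2} :
                      Set (MvPolynomial (Fin 3) ℂ))) ^ (m i)), Irreducible F) →
          Module.finrank ℂ
            ↥(MvPolynomial.homogeneousSubmodule (Fin 3) ℂ d ⊓
              Submodule.restrictScalars ℂ
                (⨅ i : Fin s,
                  (Ideal.span
                    ({MvPolynomial.X 0 - MvPolynomial.C (P i 0) * MvPolynomial.X 2,
                      MvPolynomial.X 1 - MvPolynomial.C (P i 1) * MvPolynomial.X 2} :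
                      Set (MvPolynomial (Fin 3) ℂ))) ^ (m i)))
            + ∑ i : Fin s, Nat.choose (m i + 1) 2 = Nat.choose (d + 2) 2 := by
  obtain ⟨Z, hZ, h⟩ := SH.exists_fam (Fin s × Fin 2)
  refine ⟨Z, hZ, fun P hP m d hd hF => ?_⟩
  have h0 := SH.sys_eq P d m
  unfold SHDefs.sys SHDefs.pt at h0
  rw [h0] at hF ⊢
  obtain ⟨F, hF1, hF2⟩ := hF
  have hw' : ∑ i ∈ Finset.univ.filter (fun i => 2 < m i), m i < 3 * d := by
    rw [Finset.sum_filter]
    exact hd
  have h1 := (SM.general_smoothP ((h _).1 hP) hw' hF1 hF2).1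
  rw [SH.chi_cast] at h1
  omega

end Pool.Agent.TH167.Var.MP_6e81d8_ag_IrreducibleMember
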