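import Pool.Agent.TH167.TT.NonSp

set_option autoImplicit false

/-!
# The SHGH conjecture in Gimigliano's form when at most nine multiplicities are larger than two

For very general points `P 1, …, P s` of the complex projective plane, `s ≥ 4`, every class
`(d; m 1, …, m s)` with `m 1 ≥ m 2 ≥ ⋯`, `m 10 ≤ 2` and `m 1 + m 2 + m 3 ≤ d` has the expected
dimension.
-/

namespace Pool.Agent.TH167.Var.MP_6e81d8_ag_NineAboveTwo

open Pool.Agent.TH167

theorem result (r : ℕ) : ∃ Z : ℕ → MvPolynomial (Fin (r + 4) × Fin 2) ℂ, (∀ n, Z n ≠ 0) ∧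
    ∀ P : Fin (r + 4) → Fin 2 → ℂ,
      (∀ n, MvPolynomial.eval (fun ij : Fin (r + 4) × Fin 2 => P ij.1 ij.2) (Z n) ≠ 0) →
      ∀ m : Fin (r + 4) → ℕ, Antitone m → (∀ i : Fin (r + 4), 9 ≤ (i : ℕ) → m i ≤ 2) →
        ∀ d : ℕ, m 0 + m 1 + m 2 ≤ d →
          Module.finrank ℂ
            ↥(MvPolynomial.homogeneousSubmodule (Fin 3) ℂ d ⊓
              Submodule.restrictScalars ℂ
                (⨅ i : Fin (r + 4),
                  (Ideal.span
                    ({MvPolynomial.X 0 - MvPolynomial.C (P i 0) * MvPolynomial.X 2,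
                      MvPolynomial.X 1 - MvPolynomial.C (P i 1) * MvPolynomial.X 2} :
                      Set (MvPolynomial (Fin 3) ℂ))) ^ (m i)))
          = Nat.choose (d + 2) 2 - ∑ i : Fin (r + 4), Nat.choose (m i + 1) 2 := by
  obtain ⟨Z, hZ, h⟩ := SH.exists_fam (Fin (r + 4) × Fin 2)
  refine ⟨Z, hZ, fun P hP m hm h9 d hd => ?_⟩
  have h1 := TT.nonsp_gen (TT.red_of_antitone hm hd) (TT.card_of_nine h9) ((h _).1 hP)
  rw [← SH.sys_eq] at h1
  exact h1

end Pool.Agent.TH167.Var.MP_6e81d8_ag_NineAboveTwo
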