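import Pool.Agent.TH167.TT.Conv9

set_option autoImplicit false

/-!
# The SHGH conjecture with at most nine multiplicities larger than two

Let `D = d H - ∑ w i E i` be a class on the blow-up of the plane at general points, where at most
nine of the `w i` are larger than `2` and the others are arbitrary numbers `0, 1, 2`. Then `D` has
the expected dimension, or `C D ≤ -2` for a `(-1)`-curve `C`.
-/

namespace Pool.Agent.TH167.Var.MP_70e04f_ag_NineAboveTwo

open MvPolynomial Pool.Agent.TH167 Pool.Agent.TH167.SHDefs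

theorem result (r d : ℕ) (w : Fin (r + 4) → ℕ)
    (hw : (Finset.univ.filter fun i => 2 < w i).card ≤ 9) :
    ∃ F : MvPolynomial (Fin (r + 4) × Fin 2) ℂ, F ≠ 0 ∧
      ∀ P : Fin (r + 4) → Fin 2 → ℂ,
        MvPolynomial.eval (fun ij : Fin (r + 4) × Fin 2 => P ij.1 ij.2) F ≠ 0 →
          Special P d w →
            ∃ (G : MvPolynomial (Fin 3) ℂ) (e : ℕ) (u : Fin (r + 4) → ℕ),
              MinusOne P G e u ∧ inter d w e u ≤ -2 := by
  obtain ⟨F, hF, h⟩ := TT.hh9_conv d w hw
  exact ⟨F, hF, fun P hP hs => SH.mspecial_curve ((h P hP).2.1 hs)⟩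

end Pool.Agent.TH167.Var.MP_70e04f_ag_NineAboveTwo
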