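import Pool.Agent.TH167.TT.Conv9

set_option autoImplicit false

/-!
# Segre's conjecture with at most nine multiplicities larger than two

Consider the linear system of plane curves of degree `d` with multiplicities `w i` at general
points, where at most nine of the `w i` are larger than `2` and the others are arbitrary numbers
`0, 1, 2`. If the system is special, then there is an irreducible form, defining a `(-1)`-curve,
whose square divides all forms of the system.
-/

namespace Pool.Agent.TH167.Var.MP_cfebfb_ag_NineAboveTwo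

open MvPolynomial Pool.Agent.TH167 Pool.Agent.TH167.SHDefs

theorem result (r d : ℕ) (w : Fin (r + 4) → ℕ)
    (hw : (Finset.univ.filter fun i => 2 < w i).card ≤ 9) :
    ∃ F : MvPolynomial (Fin (r + 4) × Fin 2) ℂ, F ≠ 0 ∧
      ∀ P : Fin (r + 4) → Fin 2 → ℂ,
        MvPolynomial.eval (fun ij : Fin (r + 4) × Fin 2 => P ij.1 ij.2) F ≠ 0 →
          Special P d w →
            ∃ (G : MvPolynomial (Fin 3) ℂ) (e : ℕ) (u : Fin (r + 4) → ℕ),
              MinusOne P G e u ∧ ∀ f ∈ sys P d w, G ^ 2 ∣ f := by
  obtain ⟨F, hF, h⟩ := TT.hh9_conv d w hw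
  refine ⟨F, hF, fun P hP hs => ?_⟩
  obtain ⟨hinj, h1⟩ := h P hP
  obtain ⟨G, e, u, h2, h3⟩ := SH.mspecial_curve (h1.1 hs)
  exact ⟨G, e, u, h2, fun f hf => SH.curve_sq_dvd hinj h2 h3 hf⟩

end Pool.Agent.TH167.Var.MP_cfebfb_ag_NineAboveTwo
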