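import Pool.Agent.TH167.SH.Segre2

set_option autoImplicit false

/-!
# Segre's conjecture with at most five multiplicities above a bound

Let `m ≥ 1` and `B = 2 ^ 17 (4 m ^ 2 + 8 m + 5) ^ 4`. Consider plane curves of degree `d` with
multiplicities `w i` at general points, where at most five of the `w i` are larger than `m` (or the
sum of those larger than `m` is at most `2 d - (4 m ^ 2 + 8 m + 5)`). If the linear system is
special, then there is an irreducible form `G`, defining a `(-1)`-curve, whose square divides all
forms of the system, except perhaps if the dimension is less than `B - 1`, the arithmetic genus is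
less than `B`, and the class, after the removal of disjoint `(-1)`-curves, each taken once, and
finitely many quadratic transformations, belongs to a finite list of reduced classes which depends
only on `m`, and is special there.
-/

namespace Pool.Agent.TH167.Var.MP_cfebfb_ag_SpecialImpliesNonReduced

open MvPolynomial Pool.Agent.TH167 Pool.Agent.TH167.SHDefs

theorem result (r m : ℕ) (hm : 0 < m) (d : ℕ) (w : Fin (r + 4) → ℕ) (hw : FewLarge m d w) :
    ∃ F : MvPolynomial (Fin (r + 4) × Fin 2) ℂ, F ≠ 0 ∧
      ∀ P : Fin (r + 4) → Fin 2 → ℂ,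
        MvPolynomial.eval (fun ij : Fin (r + 4) × Fin 2 => P ij.1 ij.2) F ≠ 0 →
          Special P d w →
            (∃ (G : MvPolynomial (Fin 3) ℂ) (e : ℕ) (u : Fin (r + 4) → ℕ),
              MinusOne P G e u ∧ ∀ f ∈ sys P d w, G ^ 2 ∣ f) ∨
            ExceptionalOne (bd m) P d w := by
  obtain ⟨F, hF, h⟩ := SH.shgh_conv hm d w hw
  refine ⟨F, hF, fun P hP hs => ?_⟩
  obtain ⟨hinj, h1⟩ := h P hP
  rcases h1 hs with ⟨G, e, u, h2, h3⟩ | h2
  · exact Or.inl ⟨G, e, u, h2, fun f hf => SH.curve_sq_dvd hinj h2 h3 hf⟩
  · exact Or.inr h2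

end Pool.Agent.TH167.Var.MP_cfebfb_ag_SpecialImpliesNonReduced
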