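import Pool.Agent.TH167.TT.NonSp

set_option autoImplicit false

/-!
# Non-speciality when at most nine multiplicities are larger than two

Let `v 0 ≥ v 1 ≥ ⋯` be multiplicities, all but the first nine of which are at most `2`. For general
points of the complex projective plane the linear system of forms of degree `d` with these
multiplicities is non-special in every degree `d ≥ v 0 + v 1 + v 2`.
-/

namespace Pool.Agent.TH167.Var.MP_d3128a_ag_NineAboveTwo

open Pool.Agent.TH167

theorem result (r : ℕ) (v : Fin (r + 4) → ℕ) (hv : Antitone v)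
    (h9 : ∀ i : Fin (r + 4), 9 ≤ (i : ℕ) → v i ≤ 2) :
    ∃ F : MvPolynomial (Fin (r + 4) × Fin 2) ℂ, F ≠ 0 ∧
      ∀ P : Fin (r + 4) → Fin 2 → ℂ,
        MvPolynomial.eval (fun ij : Fin (r + 4) × Fin 2 => P ij.1 ij.2) F ≠ 0 →
        ∀ d : ℕ, v 0 + v 1 + v 2 ≤ d →
          Module.finrank ℂ
            ↥(MvPolynomial.homogeneousSubmodule (Fin 3) ℂ d ⊓
              Submodule.restrictScalars ℂ
                (⨅ i : Fin (r + 4),
                  (Ideal.span
                    ({MvPolynomial.X 0 - MvPolynomial.C (P i 0) * MvPolynomial.X 2,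
                      MvPolynomial.X 1 - MvPolynomial.C (P i 1) * MvPolynomial.X 2} :
                      Set (MvPolynomial (Fin 3) ℂ))) ^ (v i)))
          = Nat.choose (d + 2) 2 - ∑ i : Fin (r + 4), Nat.choose (v i + 1) 2 := by
  obtain ⟨F, hF, h⟩ := TT.nonsp_all (TT.card_of_nine h9)
  refine ⟨F.map (algebraMap ℚ ℂ), SH.map_ne hF, fun P hP d hd => ?_⟩
  rw [SH.evP_eval] at hP
  have h1 := h ℂ P hP d (TT.red_of_antitone hv hd)
  rw [← SH.sys_eq] at h1
  exact h1

end Pool.Agent.TH167.Var.MP_d3128a_ag_NineAboveTwo
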