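import Pool.Agent.TH167.SH.Fam

set_option autoImplicit false

/-!
# Negative curves with at most five multiplicities above a bound

Let `s ≥ 4`. For very general points `P 1, …, P s` of the complex projective plane and all `m ≥ 1`
the following holds. Let `C` be an irreducible curve with `C ^ 2 < 0` on the blow-up, of class
`e H - ∑ w i E i`, such that at most five of the `w i` are larger than `m` (or the sum of those
larger than `m` is at most `2 e - (4 m ^ 2 + 8 m + 5)`). Then `C` is a `(-1)`-curve, or finitely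
many quadratic transformations carry `C` to an irreducible curve `C1` on the blow-up at other very
general points with `C1 ^ 2 = C ^ 2`, `K C1 = K C`, whose class is reduced and belongs to a finite
list which depends only on `m`; moreover the virtual dimension of `C` is then negative.
-/

namespace Pool.Agent.TH167.Var.MP_d3e5c7_ag_FewLargeMultiplicities

open MvPolynomial Pool.Agent.TH167 Pool.Agent.TH167.SHDefs

theorem result (r : ℕ) : ∃ Z : ℕ → MvPolynomial (Fin (r + 4) × Fin 2) ℂ, (∀ n, Z n ≠ 0) ∧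
    ∀ P : Fin (r + 4) → Fin 2 → ℂ,
      (∀ n, MvPolynomial.eval (fun ij : Fin (r + 4) × Fin 2 => P ij.1 ij.2) (Z n) ≠ 0) →
      ∀ (m : ℕ) (_ : 0 < m) (e : ℕ) (w : Fin (r + 4) → ℕ) (G : MvPolynomial (Fin 3) ℂ),
        Curve P G e w → inter e w e w < 0 → FewLarge m e w →
        MinusOne P G e w ∨
        ∃ (P1 : Fin (r + 4) → Fin 2 → ℂ) (G1 : MvPolynomial (Fin 3) ℂ) (e1 : ℕ)
          (w1 : Fin (r + 4) → ℕ),
          (∀ n, MvPolynomial.eval (fun ij : Fin (r + 4) × Fin 2 => P1 ij.1 ij.2) (Z n) ≠ 0) ∧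
          Curve P1 G1 e1 w1 ∧ ReducesTo (bd m) e w e1 w1 ∧
          inter e1 w1 e1 w1 = inter e w e w ∧ interK e1 w1 = interK e w ∧ virtdim e w < 0 := by
  obtain ⟨Z, hZ, h⟩ := SH.exists_fam (Fin (r + 4) × Fin 2)
  refine ⟨Z, hZ, fun P hP m hm e w G hG hneg hw => ?_⟩
  rcases SH.neg_conv hm ((h _).1 hP) hG hneg hw with h1 | ⟨P1, G1, e1, w1, a1, a2⟩
  · exact Or.inl h1
  · exact Or.inr ⟨P1, G1, e1, w1, (h _).2 a1, a2⟩

end Pool.Agent.TH167.Var.MP_d3e5c7_ag_FewLargeMultiplicities
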