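import Pool.Agent.TH167.DD.PrimeA
import Pool.Agent.TH167.TT.Conv9

set_option autoImplicit false

/-!
# Negative curves whose large multiplicities have sum less than three times the degree

Let `s ≥ 4`. For very general points `P 1, …, P s` of the complex projective plane, every
irreducible curve `C` with `C ^ 2 < 0` on the blow-up, of class `e H - ∑ w i E i`, such that the sum
of the multiplicities `w i ≥ 3` is less than `3 e`, is a `(-1)`-curve. The number of multiplicities
`w i ≥ 3` is arbitrary.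
-/

namespace Pool.Agent.TH167.Var.MP_d3e5c7_ag_PositiveOnLargePoints

open MvPolynomial Pool.Agent.TH167 Pool.Agent.TH167.SHDefs

theorem result (r : ℕ) : ∃ Z : ℕ → MvPolynomial (Fin (r + 4) × Fin 2) ℂ, (∀ n, Z n ≠ 0) ∧
    ∀ P : Fin (r + 4) → Fin 2 → ℂ,
      (∀ n, MvPolynomial.eval (fun ij : Fin (r + 4) × Fin 2 => P ij.1 ij.2) (Z n) ≠ 0) →
      ∀ (e : ℕ) (w : Fin (r + 4) → ℕ) (G : MvPolynomial (Fin 3) ℂ),
        Curve P G e w → inter e w e w < 0 →
        (∑ i, if 3 ≤ w i then w i else 0) < 3 * e → MinusOne P G e w := by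
  obtain ⟨Z, hZ, h⟩ := SH.exists_fam (Fin (r + 4) × Fin 2)
  refine ⟨Z, hZ, fun P hP e w G hG hneg hw => ?_⟩
  obtain ⟨h1, h2, h3⟩ := SH.curve_iff.1 hG
  rw [SH.inter_eq] at hneg
  have hsum : ∑ j ∈ Finset.univ.filter (fun i => 2 < w i), w j < 3 * e := by
    rw [Finset.sum_filter]
    exact hw
  obtain ⟨h4, h5⟩ := (DD.primeA (S := Finset.univ.filter fun i => 2 < w i) TT.notMem_filter hsum
    ((h _).1 hP) h1 h2 h3).2 hneg
  exact ⟨hG, by rw [SH.inter_eq, h4], by rw [SH.interK_eq, h5]⟩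

end Pool.Agent.TH167.Var.MP_d3e5c7_ag_PositiveOnLargePoints
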